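import Pool.Agent.P.MP_b7c14b_al.Main

/-! A finite automorphic loop has Sylow subloops for all primes unless it has a simple
nonassociative section. -/

namespace Pool.Agent.Old.MP_b7c14b_al.SimpleReduction

open Pool.Agent.ALoop

theorem result (Q : Type) [Mul Q] [One Q] [Finite Q] (hQ : IsALoop Q) :
    (∀ p : ℕ, p.Prime → HasSylow Q p) ∨
      ∃ (S : Type) (_ : Mul S) (_ : One S), IsALoop S ∧ IsSimple S ∧
        (¬ ∀ x y z : S, x * y * z = x * (y * z)) ∧ IsSection Q S := by
  refine or_iff_not_imp_right.2 fun h p hp => Good.sylow hp fun S _ _ h1 h2 h3 => ?_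
  by_contra h4
  exact h ⟨S, _, _, h1, h2, h4, h3⟩

end Pool.Agent.Old.MP_b7c14b_al.SimpleReduction
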